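import Mathlib

/-!
Every join-cover of a compact element in an algebraic modular spatial lattice is refined by a
minimal join-cover.
-/

namespace Pool.Agent.Results.MP_d6b04a_al.MinimalJoinCover

universe u

variable {L : Type u} [CompleteLattice L]

/-- `X` refines `Y`: every element of `X` lies below some element of `Y`. -/
def Refines {L : Type u} [CompleteLattice L] (X Y : Finset L) : Prop :=
  ∀ x ∈ X, ∃ y ∈ Y, x ≤ y

/-- `p` is a point (completely join-irreducible): `{x | x < p}` has a largest element. -/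
def IsPoint {L : Type u} [CompleteLattice L] (p : L) : Prop :=
  ∃ m : L, IsGreatest {x : L | x < p} m

/-- `L` is spatial: every element is a join of points. -/
def IsSpatial (L : Type u) [CompleteLattice L] : Prop :=
  ∀ x : L, ∃ S : Set L, (∀ q ∈ S, IsPoint q) ∧ IsLUB S x

/-- The finite set `E` is a join-cover of `p`. -/
def IsJoinCover {L : Type u} [CompleteLattice L] (p : L) (E : Finset L) : Prop :=
  p ≤ E.sup id

/-- `E` is a minimal join-cover of `p`: it is a join-cover, and every join-cover of `p`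
refining `E` contains `E`. -/
def IsMinimalJoinCover {L : Type u} [CompleteLattice L] (p : L) (E : Finset L) : Prop :=
  IsJoinCover p E ∧ ∀ X : Finset L, IsJoinCover p X → Refines X E → E ⊆ X

/-- the join of all elements strictly below `q` -/
def lc (q : L) : L := sSup {x : L | x < q}

lemma IsPoint.lc_lt {q : L} (hq : IsPoint q) : lc q < q := by
  obtain ⟨m, hm⟩ := hq
  have h : sSup {x : L | x < q} = m := hm.isLUB.sSup_eq
  unfold lc
  rw [h]
  exact hm.1

lemma le_lc {q x : L} (h : x < q) : x ≤ lc q := le_sSup h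

lemma IsPoint.isCompact [IsCompactlyGenerated L] {q : L} (hq : IsPoint q) :
    IsCompactElement q := by
  by_contra hcon
  have h1 : q ≤ lc q := by
    rw [le_iff_compact_le_imp]
    intro c hc hcq
    have hne : c ≠ q := by
      rintro rfl
      exact hcon hc
    exact le_lc (lt_of_le_of_ne hcq hne)
  exact absurd hq.lc_lt (not_lt_of_ge h1)

/-- the modular law in the form used below -/
lemma point_not_le_sup_lc [IsModularLattice L] {g k : L} (hg : IsPoint g) (h : ¬ g ≤ k) :
    ¬ g ≤ lc g ⊔ k := by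
  intro h1
  have h2 : g = lc g ⊔ (k ⊓ g) := by
    have h3 := sup_inf_assoc_of_le k hg.lc_lt.le
    rw [← h3]
    exact (inf_eq_right.mpr h1).symm
  have h4 : k ⊓ g < g := by
    refine lt_of_le_of_ne inf_le_right ?_
    intro h5
    exact h (inf_eq_right.mp h5)
  have h5 : g ≤ lc g := by
    calc g = lc g ⊔ (k ⊓ g) := h2
      _ ≤ lc g := sup_le le_rfl (le_lc h4)
  exact absurd hg.lc_lt (not_lt_of_ge h5)

lemma exists_points_below (hsp : IsSpatial L) (x : L) :
    sSup {q : L | IsPoint q ∧ q ≤ x} = x := by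
  apply le_antisymm
  · exact sSup_le fun q hq => hq.2
  · obtain ⟨S, hS, hx⟩ := hsp x
    have h1 : S ⊆ {q : L | IsPoint q ∧ q ≤ x} := fun q hq => ⟨hS q hq, hx.1 hq⟩
    calc x = sSup S := hx.sSup_eq.symm
      _ ≤ _ := sSup_le_sSup h1

open Classical in
/-- The set of bad elements of `F`. -/
noncomputable def bad (p : L) (F : Finset L) : Finset L :=
  F.filter fun f => p ≤ lc f ⊔ (F.erase f).sup id

open Classical in
/-- If there is no bad element then the cover is minimal. -/
lemma minimal_of_bad_empty {p : L} {F : Finset L} (hp : p ≤ F.sup id) (hb : bad p F = ∅) :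
    IsMinimalJoinCover p F := by
  refine ⟨hp, ?_⟩
  intro X hX hXF f hf
  by_contra hfX
  have h1 : f ∉ bad p F := by simp [hb]
  apply h1
  unfold bad
  rw [Finset.mem_filter]
  refine ⟨hf, ?_⟩
  refine le_trans hX ?_
  apply Finset.sup_le
  intro x hx
  obtain ⟨y, hy, hxy⟩ := hXF x hx
  by_cases hyf : y = f
  · subst hyf
    have hne : x ≠ y := by
      rintro rfl
      exact hfX hx
    exact le_trans (le_lc (lt_of_le_of_ne hxy hne)) le_sup_left
  · refine le_trans hxy (le_trans ?_ le_sup_right)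
    exact Finset.le_sup (f := id) (Finset.mem_erase.mpr ⟨hyf, hy⟩)

open Classical in
/-- The exchange step. -/
lemma exchange [IsCompactlyGenerated L] [IsModularLattice L] (hsp : IsSpatial L) {p : L}
    (hp : IsCompactElement p) {F : Finset L} (hpt : ∀ f ∈ F, IsPoint f)
    (hcov : p ≤ F.sup id) (hirr : ∀ f ∈ F, ¬ f ≤ (F.erase f).sup id)
    {j : L} (hj : j ∈ bad p F) :
    ∃ F' : Finset L, (∀ f ∈ F', IsPoint f) ∧ p ≤ F'.sup id ∧
      (∀ f ∈ F', ¬ f ≤ (F'.erase f).sup id) ∧ Refines F' F ∧
      (bad p F').card < (bad p F).card := by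
  have hjF : j ∈ F := (Finset.mem_filter.mp hj).1
  have hjb : p ≤ lc j ⊔ (F.erase j).sup id := (Finset.mem_filter.mp hj).2
  set N : L := (F.erase j).sup id with hN
  set N' : L := p ⊔ N with hN'
  have hNN' : N ≤ N' := le_sup_right
  have hpN' : p ≤ N' := le_sup_left
  have hFsup : F.sup id = j ⊔ N := by
    conv_lhs => rw [← Finset.insert_erase hjF]
    rw [Finset.sup_insert]
    rfl
  have hN'le : N' ≤ N ⊔ j := by
    refine sup_le ?_ le_sup_left
    rw [sup_comm, ← hFsup]
    exact hcov
  have hN'eq : N' = N ⊔ (j ⊓ N') := by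
    rw [← sup_inf_assoc_of_le j hNN']
    exact (inf_eq_right.mpr hN'le).symm
  have hNc : IsCompactElement N := by
    apply CompleteLattice.isCompactElement_finsetSup
    intro x hx
    exact (hpt x (Finset.mem_of_mem_erase hx)).isCompact
  have hN'c : IsCompactElement N' := by
    have h := CompleteLattice.isCompactElement_finsetSup (f := id) ({p, N} : Finset L) (by
      intro x hx
      rw [Finset.mem_insert, Finset.mem_singleton] at hx
      rcases hx with rfl | rfl
      · exact hp
      · exact hNc)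
    rw [Finset.sup_insert, Finset.sup_singleton] at h
    exact h
  -- choose a minimal finite set of points
  let P : Finset L → Prop := fun G => (∀ g ∈ G, IsPoint g ∧ g ≤ j ⊓ N') ∧ N' ≤ N ⊔ G.sup id
  have hexG : ∃ G : Finset L, P G := by
    have h1 : N' ≤ sSup ({N} ∪ {q : L | IsPoint q ∧ q ≤ j ⊓ N'}) := by
      rw [sSup_union, sSup_singleton, exists_points_below hsp]
      exact hN'eq.le
    obtain ⟨t, ht, ht2⟩ :=
      (CompleteLattice.isCompactElement_iff_exists_le_sSup_of_le_sSup (α := L) N').mp hN'c _ h1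
    refine ⟨t.filter fun g => IsPoint g ∧ g ≤ j ⊓ N', ?_, ?_⟩
    · intro g hg
      exact (Finset.mem_filter.mp hg).2
    · refine le_trans ht2 ?_
      apply Finset.sup_le
      intro x hx
      rcases ht hx with hx1 | hx1
      · rw [Set.mem_singleton_iff] at hx1
        subst hx1
        exact le_sup_left
      · exact le_trans (Finset.le_sup (f := id) (Finset.mem_filter.mpr ⟨hx, hx1⟩)) le_sup_right
  obtain ⟨G, hGP, hGmin⟩ : ∃ G : Finset L, P G ∧ ∀ G' : Finset L, P G' → G.card ≤ G'.card := by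
    have hex : ∃ n : ℕ, ∃ G : Finset L, P G ∧ G.card = n := by
      obtain ⟨G, hG⟩ := hexG
      exact ⟨G.card, G, hG, rfl⟩
    obtain ⟨G, hG, hGc⟩ := Nat.find_spec hex
    refine ⟨G, hG, ?_⟩
    intro G' hG'
    rw [hGc]
    exact Nat.find_min' hex ⟨G', hG', rfl⟩
  obtain ⟨hGpt, hGcov⟩ := hGP
  have hGirr : ∀ g ∈ G, ¬ g ≤ N ⊔ (G.erase g).sup id := by
    intro g hg hle
    have h1 : P (G.erase g) := by
      refine ⟨fun x hx => hGpt x (Finset.mem_of_mem_erase hx), ?_⟩
      refine le_trans hGcov ?_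
      refine sup_le le_sup_left ?_
      rw [← Finset.insert_erase hg, Finset.sup_insert, Finset.insert_erase hg]
      exact sup_le hle le_sup_right
    have h2 := hGmin _ h1
    have h3 := Finset.card_erase_lt_of_mem hg
    omega
  have hdisj : ∀ g ∈ G, g ∉ F.erase j := by
    intro g hg hgF
    apply hGirr g hg
    exact le_trans (Finset.le_sup (f := id) hgF) le_sup_left
  set F' : Finset L := F.erase j ∪ G with hF'
  have hF'sup : F'.sup id = N ⊔ G.sup id := by
    rw [hF', Finset.sup_union]
  have hGj : G.sup id ≤ j := by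
    apply Finset.sup_le
    intro g hg
    exact le_trans (hGpt g hg).2 inf_le_left
  have hGN' : ∀ g ∈ G, g ≤ N' := fun g hg => le_trans (hGpt g hg).2 inf_le_right
  have heraseG : ∀ g ∈ G, (F'.erase g).sup id = N ⊔ (G.erase g).sup id := by
    intro g hg
    have h1 : F'.erase g = F.erase j ∪ G.erase g := by
      ext x
      simp only [hF', Finset.mem_erase, Finset.mem_union]
      constructor
      · rintro ⟨h1, h2 | h2⟩
        · exact Or.inl h2
        · exact Or.inr ⟨h1, h2⟩
      · rintro (h2 | h2)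
        · refine ⟨?_, Or.inl h2⟩
          rintro rfl
          exact hdisj x hg (Finset.mem_erase.mpr h2)
        · exact ⟨h2.1, Or.inr h2.2⟩
    rw [h1, Finset.sup_union]
  have heraseF : ∀ f ∈ F, f ≠ j → (F'.erase f).sup id ≤ (F.erase f).sup id := by
    intro f hf hfj
    apply Finset.sup_le
    intro x hx
    rw [Finset.mem_erase, hF', Finset.mem_union] at hx
    obtain ⟨hxf, hx | hx⟩ := hx
    · exact Finset.le_sup (f := id)
        (Finset.mem_erase.mpr ⟨hxf, Finset.mem_of_mem_erase hx⟩)
    · refine le_trans (le_trans (Finset.le_sup (f := id) hx) hGj) ?_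
      exact Finset.le_sup (f := id) (Finset.mem_erase.mpr ⟨fun h => hfj h.symm, hjF⟩)
  refine ⟨F', ?_, ?_, ?_, ?_, ?_⟩
  · intro f hf
    rw [hF', Finset.mem_union] at hf
    rcases hf with hf | hf
    · exact hpt f (Finset.mem_of_mem_erase hf)
    · exact (hGpt f hf).1
  · rw [hF'sup]
    exact le_trans hpN' hGcov
  · intro f hf hle
    rw [hF', Finset.mem_union] at hf
    rcases hf with hf | hf
    · obtain ⟨hfj, hfF⟩ := Finset.mem_erase.mp hf
      exact hirr f hfF (le_trans hle (heraseF f hfF hfj))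
    · rw [heraseG f hf] at hle
      exact hGirr f hf hle
  · intro x hx
    rw [hF', Finset.mem_union] at hx
    rcases hx with hx | hx
    · exact ⟨x, Finset.mem_of_mem_erase hx, le_rfl⟩
    · exact ⟨j, hjF, le_trans (hGpt x hx).2 inf_le_left⟩
  · have hsub : bad p F' ⊆ (bad p F).erase j := by
      intro f hf
      unfold bad at hf
      rw [Finset.mem_filter] at hf
      obtain ⟨hf, hfb⟩ := hf
      rw [hF', Finset.mem_union] at hf
      rcases hf with hf | hf
      · obtain ⟨hfj, hfF⟩ := Finset.mem_erase.mp hf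
        rw [Finset.mem_erase]
        refine ⟨hfj, ?_⟩
        unfold bad
        rw [Finset.mem_filter]
        exact ⟨hfF, le_trans hfb (sup_le_sup_left (heraseF f hfF hfj) _)⟩
      · exfalso
        rw [heraseG f hf] at hfb
        have h1 : N' ≤ lc f ⊔ (N ⊔ (G.erase f).sup id) := by
          refine sup_le hfb ?_
          exact le_trans le_sup_left le_sup_right
        exact point_not_le_sup_lc (hGpt f hf).1 (hGirr f hf) (le_trans (hGN' f hf) h1)
    calc (bad p F').card ≤ ((bad p F).erase j).card := Finset.card_le_card hsub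
      _ < (bad p F).card := Finset.card_erase_lt_of_mem hj

lemma Refines.trans {X Y Z : Finset L} (h1 : Refines X Y) (h2 : Refines Y Z) : Refines X Z := by
  intro x hx
  obtain ⟨y, hy, hxy⟩ := h1 x hx
  obtain ⟨z, hz, hyz⟩ := h2 y hy
  exact ⟨z, hz, hxy.trans hyz⟩

open Classical in
lemma iterate [IsCompactlyGenerated L] [IsModularLattice L] (hsp : IsSpatial L) {p : L}
    (hp : IsCompactElement p) : ∀ (n : ℕ) (F : Finset L), (∀ f ∈ F, IsPoint f) →
    p ≤ F.sup id → (∀ f ∈ F, ¬ f ≤ (F.erase f).sup id) → (bad p F).card ≤ n →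
    ∃ F' : Finset L, IsMinimalJoinCover p F' ∧ Refines F' F := by
  intro n
  induction n with
  | zero =>
    intro F hpt hcov hirr hb
    refine ⟨F, minimal_of_bad_empty hcov ?_, fun x hx => ⟨x, hx, le_rfl⟩⟩
    exact Finset.card_eq_zero.mp (Nat.le_zero.mp hb)
  | succ n ih =>
    intro F hpt hcov hirr hb
    by_cases hbe : bad p F = ∅
    · exact ⟨F, minimal_of_bad_empty hcov hbe, fun x hx => ⟨x, hx, le_rfl⟩⟩
    · obtain ⟨j, hj⟩ := Finset.nonempty_iff_ne_empty.mpr hbe
      obtain ⟨F', h1, h2, h3, h4, h5⟩ := exchange hsp hp hpt hcov hirr hj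
      obtain ⟨F'', h6, h7⟩ := ih F' h1 h2 h3 (by omega)
      exact ⟨F'', h6, h7.trans h4⟩

open Classical in
lemma exists_irredundant [IsCompactlyGenerated L] (hsp : IsSpatial L) {p : L}
    (hp : IsCompactElement p) {E : Finset L} (hE : p ≤ E.sup id) :
    ∃ F : Finset L, (∀ f ∈ F, IsPoint f) ∧ p ≤ F.sup id ∧
      (∀ f ∈ F, ¬ f ≤ (F.erase f).sup id) ∧ Refines F E := by
  let P : Finset L → Prop := fun F =>
    (∀ f ∈ F, IsPoint f ∧ ∃ e ∈ E, f ≤ e) ∧ p ≤ F.sup id
  have hex0 : ∃ F : Finset L, P F := by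
    have h1 : p ≤ sSup {q : L | IsPoint q ∧ ∃ e ∈ E, q ≤ e} := by
      refine le_trans hE ?_
      apply Finset.sup_le
      intro e he
      have h2 : {q : L | IsPoint q ∧ q ≤ e} ⊆ {q : L | IsPoint q ∧ ∃ e ∈ E, q ≤ e} :=
        fun q hq => ⟨hq.1, e, he, hq.2⟩
      calc id e = sSup {q : L | IsPoint q ∧ q ≤ e} := (exists_points_below hsp e).symm
        _ ≤ _ := sSup_le_sSup h2
    obtain ⟨t, ht, ht2⟩ :=
      (CompleteLattice.isCompactElement_iff_exists_le_sSup_of_le_sSup (α := L) p).mp hp _ h1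
    exact ⟨t, fun f hf => ht hf, ht2⟩
  obtain ⟨F, hF, hFmin⟩ : ∃ F : Finset L, P F ∧ ∀ F' : Finset L, P F' → F.card ≤ F'.card := by
    have hex : ∃ n : ℕ, ∃ F : Finset L, P F ∧ F.card = n := by
      obtain ⟨F, hF⟩ := hex0
      exact ⟨F.card, F, hF, rfl⟩
    obtain ⟨F, hF, hFc⟩ := Nat.find_spec hex
    refine ⟨F, hF, ?_⟩
    intro F' hF'
    rw [hFc]
    exact Nat.find_min' hex ⟨F', hF', rfl⟩
  refine ⟨F, fun f hf => (hF.1 f hf).1, hF.2, ?_, fun f hf => (hF.1 f hf).2⟩
  intro f hf hle
  have h1 : P (F.erase f) := by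
    refine ⟨fun x hx => hF.1 x (Finset.mem_of_mem_erase hx), ?_⟩
    refine le_trans hF.2 ?_
    conv_lhs => rw [← Finset.insert_erase hf]
    rw [Finset.sup_insert]
    exact sup_le hle le_rfl
  have h2 := hFmin _ h1
  have h3 := Finset.card_erase_lt_of_mem hf
  omega

/-- Q1 of MP_d6b04a_al has a positive answer. -/
theorem result {L : Type u} [CompleteLattice L] [IsCompactlyGenerated L] [IsModularLattice L]
    (hsp : IsSpatial L) (p : L) (hp : IsCompactElement p) (E : Finset L)
    (hE : IsJoinCover p E) :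
    ∃ F : Finset L, IsMinimalJoinCover p F ∧ Refines F E := by
  obtain ⟨F, h1, h2, h3, h4⟩ := exists_irredundant hsp hp hE
  obtain ⟨F', h5, h6⟩ := iterate hsp hp (bad p F).card F h1 h2 h3 le_rfl
  exact ⟨F', h5, h6.trans h4⟩

end Pool.Agent.Results.MP_d6b04a_al.MinimalJoinCover
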